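import Mathlib

/-!
# Every bipartite graph is an induced subgraph of a graceful one without a near `α`-valuation

Let `H` be a finite bipartite graph. For all large `M` there is a connected bipartite graph `G` with
`16 M + 20` edges which contains `H` as an induced subgraph, has a `β`-valuation, and has no near
`α`-valuation.

The graph `G`. Its vertices are their own labels. The edge with label `d ≤ 20` is the one of
`K_{5,5}` minus a perfect matching in a graceful labelling, shifted by `x0`. The edges with labels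
`20 + 16 k + e`, `1 ≤ e ≤ 16`, form a `K_{4,4}` between the blocks `16 p + {0, 1, 2, 3}` and
`20 + 16 (p + k) + {4, 8, 12, 16}`, where `p = P k`. Such a pair of blocks stands for each edge of
`H`, and the remaining differences are covered with the help of two blocks outside of `H`. All
degrees of `G` are divisible by four, so that the sum of the edge labels in a near `α`-valuation is
divisible by `4`; but `1 + 2 + ⋯ + (16 M + 20)` is not.
-/

set_option autoImplicit false
set_option linter.unusedSectionVars false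
set_option linter.unusedVariables false

namespace Pool.Agent.Results.MP_cfde94_co.EveryInducedSubgraph

/-- The label `|b u - b v|` of the pair `{u, v}`. -/
def edgeLabel {V : Type} (b : V → ℕ) : Sym2 V → ℕ :=
  Sym2.lift ⟨fun u v => Nat.dist (b u) (b v), fun _ _ => Nat.dist_comm _ _⟩

/-- `b` is a `β`-valuation (graceful labelling) of `G`: with `n` the number of edges, `b` is an
injective map to `{0, …, n}` and the edge labels `|b u - b v|` are exactly `1, …, n`, each
occurring once. -/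
def IsBetaValuation {V : Type} (G : SimpleGraph V) (b : V → ℕ) : Prop :=
  Function.Injective b ∧ (∀ v, b v ≤ G.edgeSet.ncard) ∧
    Set.BijOn (edgeLabel b) G.edgeSet (Set.Icc 1 G.edgeSet.ncard)

/-- `b` is a near `α`-valuation of `G`: a `β`-valuation for which the vertex set splits into a set
`S` of small vertices and its complement such that every vertex of `S` has a smaller label than
each of its neighbours, and every other vertex has a larger label than each of its neighbours. -/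
def IsNearAlphaValuation {V : Type} (G : SimpleGraph V) (b : V → ℕ) : Prop :=
  IsBetaValuation G b ∧ ∃ S : Set V, (∀ v ∈ S, ∀ u, G.Adj v u → b v < b u) ∧
    (∀ v, v ∉ S → ∀ u, G.Adj v u → b u < b v)

section general

/-! ### The graph given by the small ends of the edges with labels `1, …, n` -/

variable (n : ℕ) (s : ℕ → ℕ)

/-- adjacency of labels -/
def AdjL (x y : ℕ) : Prop :=
  ∃ d, 1 ≤ d ∧ d ≤ n ∧ ((x = s d ∧ y = s d + d) ∨ (y = s d ∧ x = s d + d))

/-- the labels which occur -/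
abbrev VV : Type := {x : ℕ // ∃ y, AdjL n s x y}

/-- the graph -/
def GG : SimpleGraph (VV n s) where
  Adj x y := AdjL n s x.1 y.1
  symm := ⟨by
    rintro x y ⟨d, h1, h2, h | h⟩
    · exact ⟨d, h1, h2, Or.inr h⟩
    · exact ⟨d, h1, h2, Or.inl h⟩⟩
  loopless := ⟨by
    rintro x ⟨d, h1, h2, h | h⟩ <;> omega⟩

variable {n s}

lemma adj_lo {d : ℕ} (h1 : 1 ≤ d) (h2 : d ≤ n) : AdjL n s (s d) (s d + d) :=
  ⟨d, h1, h2, Or.inl ⟨rfl, rfl⟩⟩

lemma adj_hi {d : ℕ} (h1 : 1 ≤ d) (h2 : d ≤ n) : AdjL n s (s d + d) (s d) :=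
  ⟨d, h1, h2, Or.inr ⟨rfl, rfl⟩⟩

/-- the lower end of the edge with label `d` -/
def lo {d : ℕ} (h1 : 1 ≤ d) (h2 : d ≤ n) : VV n s := ⟨s d, _, adj_lo h1 h2⟩

/-- the upper end of the edge with label `d` -/
def hi {d : ℕ} (h1 : 1 ≤ d) (h2 : d ≤ n) : VV n s := ⟨s d + d, _, adj_hi h1 h2⟩

lemma lo_hi {d : ℕ} (h1 : 1 ≤ d) (h2 : d ≤ n) : (GG n s).Adj (lo h1 h2) (hi h1 h2) :=
  adj_lo h1 h2

open Classical in
/-- the edge with label `d` -/
noncomputable def ed (n : ℕ) (s : ℕ → ℕ) (v0 : VV n s) (d : ℕ) : Sym2 (VV n s) :=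
  if h : 1 ≤ d ∧ d ≤ n then s(lo h.1 h.2, hi h.1 h.2) else s(v0, v0)

lemma ed_of (v0 : VV n s) {d : ℕ} (h1 : 1 ≤ d) (h2 : d ≤ n) :
    ed n s v0 d = s(lo h1 h2, hi h1 h2) := by
  rw [ed, dif_pos ⟨h1, h2⟩]

lemma label_ed (v0 : VV n s) {d : ℕ} (h1 : 1 ≤ d) (h2 : d ≤ n) :
    edgeLabel (fun x : VV n s => x.1) (ed n s v0 d) = d := by
  rw [ed_of v0 h1 h2]
  show Nat.dist (s d) (s d + d) = d
  rw [Nat.dist]
  omega

lemma ed_bij (v0 : VV n s) : Set.BijOn (ed n s v0) (Set.Icc 1 n) (GG n s).edgeSet := by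
  refine ⟨?_, ?_, ?_⟩
  · intro d hd
    rw [ed_of v0 hd.1 hd.2]
    exact lo_hi hd.1 hd.2
  · intro d hd d' hd' h
    rw [← label_ed v0 hd.1 hd.2, h, label_ed v0 hd'.1 hd'.2]
  · intro e
    induction e using Sym2.ind with
    | _ x y =>
      rintro ⟨d, h1, h2, h | h⟩
      · refine ⟨d, ⟨h1, h2⟩, ?_⟩
        rw [ed_of v0 h1 h2]
        exact congrArg₂ (fun a b => s(a, b)) (Subtype.ext h.1.symm) (Subtype.ext h.2.symm)
      · refine ⟨d, ⟨h1, h2⟩, ?_⟩
        rw [ed_of v0 h1 h2, Sym2.eq_swap]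
        exact congrArg₂ (fun a b => s(a, b)) (Subtype.ext h.2.symm) (Subtype.ext h.1.symm)

lemma ncard_edges (v0 : VV n s) : (GG n s).edgeSet.ncard = n := by
  rw [← (ed_bij v0).image_eq, (ed_bij v0).injOn.ncard_image]
  rw [← Finset.coe_Icc, Set.ncard_coe_finset, Nat.card_Icc]
  omega

lemma beta (v0 : VV n s) (hs : ∀ d, 1 ≤ d → d ≤ n → s d + d ≤ n) :
    IsBetaValuation (GG n s) (fun x => x.1) := by
  rw [IsBetaValuation, ncard_edges v0]
  refine ⟨Subtype.val_injective, ?_, ?_⟩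
  · rintro ⟨x, y, d, h1, h2, h | h⟩
    · have := hs d h1 h2
      show x ≤ n
      omega
    · have := hs d h1 h2
      show x ≤ n
      omega
  · refine ⟨?_, ?_, ?_⟩
    · intro e he
      obtain ⟨d, hd, rfl⟩ := (ed_bij v0).surjOn he
      rw [label_ed v0 hd.1 hd.2]
      exact hd
    · intro e he e' he' h
      obtain ⟨d, hd, rfl⟩ := (ed_bij v0).surjOn he
      obtain ⟨d', hd', rfl⟩ := (ed_bij v0).surjOn he'
      rw [label_ed v0 hd.1 hd.2, label_ed v0 hd'.1 hd'.2] at h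
      rw [h]
    · intro d hd
      exact ⟨ed n s v0 d, (ed_bij v0).mapsTo hd, label_ed v0 hd.1 hd.2⟩

/-- the sum formula for a near `α`-valuation -/
lemma near_sum (v0 : VV n s) {b : VV n s → ℕ} (hb : IsNearAlphaValuation (GG n s) b) :
    ∃ F : ℕ → ℤ, ∑ d ∈ Finset.Icc 1 n, (F (s d) + F (s d + d)) = ∑ d ∈ Finset.Icc 1 n, (d : ℤ) := by
  classical
  obtain ⟨⟨-, -, hbij⟩, S, hS, hL⟩ := hb
  rw [ncard_edges v0] at hbij
  have hcomp : Set.BijOn (fun d => edgeLabel b (ed n s v0 d)) (Set.Icc 1 n) (Set.Icc 1 n) :=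
    hbij.comp (ed_bij v0)
  let f : VV n s → ℤ := fun v => if v ∈ S then -(b v : ℤ) else (b v : ℤ)
  let F : ℕ → ℤ := fun x => if h : ∃ y, AdjL n s x y then f ⟨x, h⟩ else 0
  have hF : ∀ v : VV n s, F v.1 = f v := by
    intro v
    simp only [F]
    rw [dif_pos v.2]
  refine ⟨F, ?_⟩
  have h1 : ∑ d ∈ Finset.Icc 1 n, ((edgeLabel b (ed n s v0 d) : ℕ) : ℤ) =
      ∑ d ∈ Finset.Icc 1 n, (d : ℤ) := by
    refine Finset.sum_nbij (fun d => edgeLabel b (ed n s v0 d)) ?_ ?_ ?_ (fun _ _ => rfl)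
    · intro d hd
      have := hcomp.mapsTo (Finset.mem_Icc.mp hd)
      exact Finset.mem_Icc.mpr this
    · rw [Finset.coe_Icc]
      exact hcomp.injOn
    · rw [Finset.coe_Icc]
      exact hcomp.surjOn
  rw [← h1]
  refine Finset.sum_congr rfl fun d hd => ?_
  obtain ⟨hd1, hd2⟩ := Finset.mem_Icc.mp hd
  rw [ed_of v0 hd1 hd2]
  have e1 : F (s d) = f (lo hd1 hd2) := hF (lo hd1 hd2)
  have e2 : F (s d + d) = f (hi hd1 hd2) := hF (hi hd1 hd2)
  rw [e1, e2]
  show _ = ((Nat.dist (b (lo hd1 hd2)) (b (hi hd1 hd2)) : ℕ) : ℤ)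
  have hadj : (GG n s).Adj (lo hd1 hd2) (hi hd1 hd2) := lo_hi hd1 hd2
  unfold Nat.dist
  by_cases hu : (lo hd1 hd2 : VV n s) ∈ S
  · have h2 := hS _ hu _ hadj
    have hv : (hi hd1 hd2 : VV n s) ∉ S := fun hv => absurd (hS _ hv _ hadj.symm) (by omega)
    simp only [f, if_pos hu, if_neg hv]
    omega
  · have h2 := hL _ hu _ hadj
    have hv : (hi hd1 hd2 : VV n s) ∈ S := by
      by_contra hv
      exact absurd (hL _ hv _ hadj.symm) (by omega)
    simp only [f, if_neg hu, if_pos hv]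
    omega

end general

section special

/-! ### The special graph -/

/-- the lower ends of the edges of the small graph -/
def cr (d : ℕ) : ℕ :=
  [0, 14, 15, 11, 15, 15, 11, 11, 6, 11, 4, 6, 6, 6, 4, 4, 4, 0, 0, 0, 0].getD d 0

open Classical in
/-- the lower block of the difference `k` -/
noncomputable def PP (m : ℕ) (R : ℕ → ℕ → Prop) (k : ℕ) : ℕ :=
  if k < m + 1 then m + 1 else
    if k % (m + 1) ≠ 0 ∧ R (m - k % (m + 1)) (k / (m + 1) - 1) then m + 1 - k % (m + 1) else 0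

/-- the lower ends of the edges -/
def sm (m : ℕ) (P : ℕ → ℕ) (d : ℕ) : ℕ :=
  if d ≤ 20 then 16 * (m + 1) + 3 + cr d else 16 * P ((d - 21) / 16) + 3 - (d - 21) % 4

lemma cr_le {d : ℕ} (h1 : 1 ≤ d) (h : d ≤ 20) : cr d + d ≤ 20 ∧ cr d ≤ 19 := by
  interval_cases d <;> simp [cr]

lemma sm_small {m : ℕ} {P : ℕ → ℕ} {d : ℕ} (h : d ≤ 20) : sm m P d = 16 * (m + 1) + 3 + cr d :=
  if_pos h

lemma sm_big (m : ℕ) (P : ℕ → ℕ) (k : ℕ) {r t : ℕ} (hr : r < 4) (ht : t < 4) :
    sm m P (16 * k + 4 * t + 24 - r) = 16 * P k + r := by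
  rw [sm, if_neg (by omega)]
  have h1 : (16 * k + 4 * t + 24 - r - 21) / 16 = k := by omega
  have h2 : (16 * k + 4 * t + 24 - r - 21) % 4 = 3 - r := by omega
  rw [h1, h2]
  omega

lemma sm_cases {m : ℕ} {P : ℕ → ℕ} {d : ℕ} (h : 20 < d) : ∃ k r t, r < 4 ∧ t < 4 ∧
    d = 16 * k + 4 * t + 24 - r ∧ sm m P d = 16 * P k + r ∧
    sm m P d + d = 16 * (P k + k) + 24 + 4 * t := by
  refine ⟨(d - 21) / 16, 3 - (d - 21) % 4, ((d - 21) % 16) / 4, by omega, by omega, by omega, ?_, ?_⟩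
  · rw [sm, if_neg (by omega)]
    omega
  · rw [sm, if_neg (by omega)]
    omega

/-- all sums are divisible by four -/
lemma four_dvd (m : ℕ) (P : ℕ → ℕ) (F : ℕ → ℤ) (M : ℕ) :
    4 ∣ ∑ d ∈ Finset.Icc 1 (16 * M + 20), (F (sm m P d) + F (sm m P d + d)) := by
  induction M with
  | zero =>
    obtain ⟨x, hx⟩ : ∃ x, x = 16 * (m + 1) + 3 := ⟨_, rfl⟩
    refine ⟨F x + F (x + 4) + F (x + 6) + F (x + 11) + F (x + 15) + F (x + 14) + F (x + 17) +
      F (x + 18) + F (x + 19) + F (x + 20), ?_⟩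
    have h : ∀ d ∈ Finset.Icc 1 (16 * 0 + 20), F (sm m P d) + F (sm m P d + d) =
        F (x + cr d) + F (x + (cr d + d)) := by
      intro d hd
      have hd' := Finset.mem_Icc.mp hd
      rw [sm_small (by omega), ← hx, add_assoc]
    rw [Finset.sum_congr rfl h]
    have h2 : Finset.Icc 1 (16 * 0 + 20) = {1, 2, 3, 4, 5, 6, 7, 8, 9, 10, 11, 12, 13, 14, 15, 16,
      17, 18, 19, 20} := by decide
    rw [h2]
    simp [cr]
    ring
  | succ M ih =>
    have e : 16 * (M + 1) + 20 = 16 * M + 20 + 16 := by ring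
    rw [e]
    have hstep : ∀ N : ℕ, ∀ g : ℕ → ℤ, ∑ d ∈ Finset.Icc 1 (N + 16), g d =
        ∑ d ∈ Finset.Icc 1 N, g d + ∑ i ∈ Finset.range 16, g (N + 1 + i) := by
      intro N g
      have h : ∀ j : ℕ, ∑ d ∈ Finset.Icc 1 (N + j), g d =
          ∑ d ∈ Finset.Icc 1 N, g d + ∑ i ∈ Finset.range j, g (N + 1 + i) := by
        intro j
        induction j with
        | zero => simp
        | succ j ihj =>
          rw [← add_assoc, Finset.sum_Icc_succ_top (by omega), ihj, Finset.sum_range_succ, add_assoc]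
          congr 3
          omega
      exact h 16
    rw [hstep]
    refine dvd_add ih ?_
    have hv : ∀ i < 16, F (sm m P (16 * M + 20 + 1 + i)) +
        F (sm m P (16 * M + 20 + 1 + i) + (16 * M + 20 + 1 + i)) =
        F (16 * P M + (3 - i % 4)) + F (16 * (P M + M) + 24 + 4 * (i / 4)) := by
      intro i hi
      have h1 : (16 * M + 20 + 1 + i - 21) / 16 = M := by omega
      have h2 : (16 * M + 20 + 1 + i - 21) % 4 = i % 4 := by omega
      have h3 : sm m P (16 * M + 20 + 1 + i) = 16 * P M + (3 - i % 4) := by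
        rw [sm, if_neg (by omega), h1, h2]
        omega
      rw [h3]
      congr 2
      omega
    rw [Finset.sum_congr rfl fun i hi => hv i (Finset.mem_range.mp hi)]
    refine ⟨F (16 * P M) + F (16 * P M + 1) + F (16 * P M + 2) + F (16 * P M + 3) +
      F (16 * (P M + M) + 24) + F (16 * (P M + M) + 24 + 4) + F (16 * (P M + M) + 24 + 8) +
      F (16 * (P M + M) + 24 + 12), ?_⟩
    simp only [Finset.sum_range_succ, Finset.sum_range_zero]
    norm_num
    ring

lemma sum_Icc_id (n : ℕ) : 2 * ∑ d ∈ Finset.Icc 1 n, (d : ℤ) = n * (n + 1) := by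
  induction n with
  | zero => simp
  | succ n ih =>
    rw [Finset.sum_Icc_succ_top (by omega), mul_add, ih]
    push_cast
    ring

end special

section construction

variable {m M : ℕ} {R : ℕ → ℕ → Prop}

lemma PP_small {k : ℕ} (h : k < m + 1) : PP m R k = m + 1 := if_pos h

lemma PP_zero {p : ℕ} (h : 1 ≤ p) : PP m R ((m + 1) * p) = 0 := by
  have h1 : ¬ (m + 1) * p < m + 1 := by
    have : m + 1 ≤ (m + 1) * p := Nat.le_mul_of_pos_right _ h
    omega
  rw [PP, if_neg h1, if_neg]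
  rintro ⟨h2, -⟩
  exact h2 (Nat.mul_mod_right _ _)

lemma PP_cases (k : ℕ) : (k < m + 1 ∧ PP m R k = m + 1) ∨ (m + 1 ≤ k ∧ PP m R k = 0) ∨
    (m + 1 ≤ k ∧ ∃ i j, i < m ∧ R i j ∧ PP m R k = i + 1 ∧ PP m R k + k = (m + 1) * (j + 2)) := by
  by_cases h : k < m + 1
  · exact Or.inl ⟨h, PP_small h⟩
  right
  push Not at h
  by_cases h2 : k % (m + 1) ≠ 0 ∧ R (m - k % (m + 1)) (k / (m + 1) - 1)
  · right
    have hlt : k % (m + 1) < m + 1 := Nat.mod_lt _ (by omega)
    have hdiv : 1 ≤ k / (m + 1) := (Nat.one_le_div_iff (by omega)).mpr h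
    have hP : PP m R k = m + 1 - k % (m + 1) := by
      rw [PP, if_neg (by omega), if_pos h2]
    refine ⟨h, m - k % (m + 1), k / (m + 1) - 1, ?_, h2.2, ?_, ?_⟩
    · have := h2.1
      omega
    · rw [hP]
      omega
    · rw [hP]
      have h3 := Nat.div_add_mod k (m + 1)
      obtain ⟨q, hq⟩ : ∃ q, k / (m + 1) = q + 1 := ⟨k / (m + 1) - 1, by omega⟩
      rw [hq] at h3 ⊢
      have h4 : (m + 1) * (q + 1 - 1 + 2) = (m + 1) * (q + 1) + (m + 1) := by
        rw [Nat.add_sub_cancel]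
        ring
      rw [h4]
      omega
  · left
    refine ⟨h, ?_⟩
    rw [PP, if_neg (by omega), if_neg h2]

lemma PP_rel {i j : ℕ} (hi : i < m) (hR : R i j) :
    PP m R ((m + 1) * (j + 1) + (m - i)) = i + 1 := by
  have h1 : ((m + 1) * (j + 1) + (m - i)) % (m + 1) = m - i := by
    rw [Nat.mul_add_mod, Nat.mod_eq_of_lt (by omega)]
  have h2 : ((m + 1) * (j + 1) + (m - i)) / (m + 1) = j + 1 := by
    rw [Nat.mul_add_div (by omega), Nat.div_eq_of_lt (by omega), add_zero]
  have h3 : m + 1 ≤ (m + 1) * (j + 1) := Nat.le_mul_of_pos_right _ (by omega)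
  rw [PP, if_neg (by omega), if_pos, h1]
  · omega
  · rw [h1, h2]
    have e : m - (m - i) = i := by omega
    rw [e, Nat.add_sub_cancel]
    exact ⟨by omega, hR⟩

/-- the bound on the labels -/
def Big (m M : ℕ) (R : ℕ → ℕ → Prop) : Prop :=
  (m + 1) * (m + 2) + 1 ≤ M ∧ ∀ i j, R i j → j ≤ m

lemma two_le (hM : Big m M R) : 2 * (m + 1) + 1 ≤ M := by
  have h := hM.1
  nlinarith

lemma PP_bound (hM : Big m M R) {k : ℕ} (hk : k < M) :
    PP m R k ≤ m + 1 ∧ m + 1 ≤ PP m R k + k ∧ PP m R k + k < M := by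
  have h2 := two_le hM
  rcases PP_cases (m := m) (R := R) k with ⟨h, hP⟩ | ⟨h, hP⟩ | ⟨h, i, j, hi, hR, hP, hP2⟩
  · rw [hP]
    omega
  · rw [hP]
    omega
  · have hj := hM.2 i j hR
    have h3 : (m + 1) * (j + 2) ≤ (m + 1) * (m + 2) := Nat.mul_le_mul_left _ (by omega)
    have h4 := hM.1
    omega

/-- the lower ends in the construction -/
noncomputable abbrev S0 (m : ℕ) (R : ℕ → ℕ → Prop) : ℕ → ℕ := sm m (PP m R)

/-- what an edge is -/
lemma edge_cases {d : ℕ} (h2 : d ≤ 16 * M + 20) :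
    (d ≤ 20 ∧ S0 m R d = 16 * (m + 1) + 3 + cr d) ∨
    ∃ k r t, k < M ∧ r < 4 ∧ t < 4 ∧ d = 16 * k + 4 * t + 24 - r ∧ S0 m R d = 16 * PP m R k + r ∧
      S0 m R d + d = 16 * (PP m R k + k) + 24 + 4 * t := by
  by_cases h : d ≤ 20
  · exact Or.inl ⟨h, sm_small h⟩
  · right
    obtain ⟨k, r, t, hr, ht, hd, e1, e2⟩ := sm_cases (m := m) (P := PP m R) (d := d) (by omega)
    exact ⟨k, r, t, by omega, hr, ht, hd, e1, e2⟩

lemma bound (hM : Big m M R) : ∀ d, 1 ≤ d → d ≤ 16 * M + 20 → S0 m R d + d ≤ 16 * M + 20 := by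
  intro d h1 h2
  have h3 := two_le hM
  rcases edge_cases (m := m) (R := R) h2 with ⟨h, e⟩ | ⟨k, r, t, hk, hr, ht, hd, e1, e2⟩
  · have := cr_le h1 h
    omega
  · have := PP_bound hM hk
    omega

lemma low_high (hM : Big m M R) : ∀ d, 1 ≤ d → d ≤ 16 * M + 20 →
    S0 m R d ≤ 16 * (m + 1) + 22 ∧ 16 * (m + 1) + 4 ≤ S0 m R d + d := by
  intro d h1 h2
  rcases edge_cases (m := m) (R := R) h2 with ⟨h, e⟩ | ⟨k, r, t, hk, hr, ht, hd, e1, e2⟩
  · have := cr_le h1 h
    omega
  · have := PP_bound hM hk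
    omega

/-- the graph of the construction, on labels -/
abbrev Ad (m M : ℕ) (R : ℕ → ℕ → Prop) : ℕ → ℕ → Prop := AdjL (16 * M + 20) (S0 m R)

lemma ad_symm {x y : ℕ} (h : Ad m M R x y) : Ad m M R y x := by
  obtain ⟨d, h1, h2, h | h⟩ := h
  · exact ⟨d, h1, h2, Or.inr h⟩
  · exact ⟨d, h1, h2, Or.inl h⟩

lemma ad_block (k r t : ℕ) (hk : k < M) (hr : r < 4) (ht : t < 4) :
    Ad m M R (16 * PP m R k + r) (16 * (PP m R k + k) + 24 + 4 * t) := by
  refine ⟨16 * k + 4 * t + 24 - r, by omega, by omega, Or.inl ?_⟩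
  have h : S0 m R (16 * k + 4 * t + 24 - r) = 16 * PP m R k + r := sm_big m (PP m R) k hr ht
  refine ⟨h.symm, ?_⟩
  rw [h]
  omega

lemma ad_crown (hM : Big m M R) {d : ℕ} (h1 : 1 ≤ d) (h : d ≤ 20) :
    Ad m M R (16 * (m + 1) + 3 + cr d) (16 * (m + 1) + 3 + (cr d + d)) := by
  have h3 := two_le hM
  refine ⟨d, h1, by omega, Or.inl ?_⟩
  rw [show S0 m R d = _ from sm_small h]
  exact ⟨rfl, by omega⟩

/-! ### Colours -/

/-- the colour of a label -/
def col (m x : ℕ) : Bool :=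
  if x < 16 * (m + 1) + 3 then false else
    if 16 * (m + 1) + 3 + 20 < x then true else
      decide (x - (16 * (m + 1) + 3) ∈ [14, 17, 18, 19, 20])

lemma col_ne (hM : Big m M R) {d : ℕ} (h1 : 1 ≤ d) (h2 : d ≤ 16 * M + 20) :
    col m (S0 m R d) ≠ col m (S0 m R d + d) := by
  rcases edge_cases (m := m) (R := R) h2 with ⟨h, e⟩ | ⟨k, r, t, hk, hr, ht, hd, e1, e2⟩
  · rw [e]
    have hc := cr_le h1 h
    have a1 : 16 * (m + 1) + 3 + cr d + d - (16 * (m + 1) + 3) = cr d + d := by omega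
    have a2 : 16 * (m + 1) + 3 + cr d - (16 * (m + 1) + 3) = cr d := by omega
    rw [col, col, if_neg (by omega), if_neg (by omega), if_neg (by omega), if_neg (by omega), a1, a2]
    clear hc a1 a2 e h2
    interval_cases d <;> decide
  · have := PP_bound hM hk
    have a1 : col m (S0 m R d + d) = true := by
      rw [e2, col, if_neg (by omega), if_pos (by omega)]
    have a2 : col m (S0 m R d) = false := by
      rw [e1, col]
      by_cases h3 : 16 * PP m R k + r < 16 * (m + 1) + 3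
      · rw [if_pos h3]
      · rw [if_neg h3, if_neg (by omega)]
        have h4 : 16 * PP m R k + r - (16 * (m + 1) + 3) = 0 := by omega
        rw [h4]
        decide
    rw [a1, a2]
    decide

/-! ### Connectedness -/

/-- reachable from the label `0` -/
def Cn (m M : ℕ) (R : ℕ → ℕ → Prop) (x : ℕ) : Prop := Relation.ReflTransGen (Ad m M R) 0 x

lemma Cn.step {x y : ℕ} (h : Cn m M R x) (hxy : Ad m M R x y) : Cn m M R y := h.tail hxy

lemma Cn.back {x y : ℕ} (h : Cn m M R x) (hxy : Ad m M R y x) : Cn m M R y := h.tail (ad_symm hxy)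

lemma cn_B0 {p t : ℕ} (hp : PP m R p = 0) (hpM : p < M) (ht : t < 4) :
    Cn m M R (16 * p + 24 + 4 * t) := by
  have h := ad_block (m := m) (M := M) (R := R) p 0 t hpM (by norm_num) ht
  rw [hp] at h
  simp only [mul_zero, zero_add] at h
  exact Relation.ReflTransGen.single h

lemma cn_A0 (hM : Big m M R) {r : ℕ} (hr : r < 4) : Cn m M R r := by
  have h2 := two_le hM
  have hP : PP m R (m + 1) = 0 := by
    have := PP_zero (m := m) (R := R) (p := 1) le_rfl
    rwa [mul_one] at this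
  have h := ad_block (m := m) (M := M) (R := R) (m + 1) r 0 (by omega) hr (by norm_num)
  have h' := cn_B0 (t := 0) hP (show m + 1 < M by omega) (by norm_num)
  rw [hP] at h
  simp only [mul_zero, zero_add] at h
  exact h'.back h

lemma cn_Astar (hM : Big m M R) {r : ℕ} (hr : r < 4) : Cn m M R (16 * (m + 1) + r) := by
  have h2 := two_le hM
  have hP : PP m R (m + 1) = 0 := by
    have := PP_zero (m := m) (R := R) (p := 1) le_rfl
    rwa [mul_one] at this
  have h := ad_block (m := m) (M := M) (R := R) 0 r 0 (by omega) hr (by norm_num)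
  rw [PP_small (by omega)] at h
  exact (cn_B0 (t := 0) hP (show m + 1 < M by omega) (by norm_num)).back h

lemma cn_block (hM : Big m M R) {k r t : ℕ} (hk : k < M) (hr : r < 4) (ht : t < 4) :
    Cn m M R (16 * PP m R k + r) ∧ Cn m M R (16 * (PP m R k + k) + 24 + 4 * t) := by
  have key : Cn m M R (16 * PP m R k + r) := by
    rcases PP_cases (m := m) (R := R) k with ⟨h, hP⟩ | ⟨h, hP⟩ | ⟨h, i, j, hi, hR, hP, hP2⟩
    · rw [hP]
      exact cn_Astar hM hr
    · rw [hP, mul_zero, zero_add]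
      exact cn_A0 hM hr
    · have hq : PP m R (PP m R k + k) = 0 := by
        rw [hP2]
        exact PP_zero (by omega)
      have hb := (PP_bound hM hk).2.2
      exact (cn_B0 (t := 0) hq hb (by norm_num)).back (ad_block k r 0 hk hr (by norm_num))
  exact ⟨key, key.step (ad_block k r t hk hr ht)⟩

lemma cn_crown (hM : Big m M R) {d : ℕ} (h1 : 1 ≤ d) (h : d ≤ 20) :
    Cn m M R (16 * (m + 1) + 3 + cr d) ∧ Cn m M R (16 * (m + 1) + 3 + (cr d + d)) := by
  have c0 : Cn m M R (16 * (m + 1) + 3 + 0) := cn_Astar hM (by norm_num)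
  have c17 : Cn m M R (16 * (m + 1) + 3 + 17) := c0.step (ad_crown hM (d := 17) (by norm_num) (by norm_num))
  have c18 : Cn m M R (16 * (m + 1) + 3 + 18) := c0.step (ad_crown hM (d := 18) (by norm_num) (by norm_num))
  have c19 : Cn m M R (16 * (m + 1) + 3 + 19) := c0.step (ad_crown hM (d := 19) (by norm_num) (by norm_num))
  have c20 : Cn m M R (16 * (m + 1) + 3 + 20) := c0.step (ad_crown hM (d := 20) (by norm_num) (by norm_num))
  have c15 : Cn m M R (16 * (m + 1) + 3 + 15) := c17.back (ad_crown hM (d := 2) (by norm_num) (by norm_num))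
  have c11 : Cn m M R (16 * (m + 1) + 3 + 11) := c17.back (ad_crown hM (d := 6) (by norm_num) (by norm_num))
  have c6 : Cn m M R (16 * (m + 1) + 3 + 6) := c18.back (ad_crown hM (d := 12) (by norm_num) (by norm_num))
  have c4 : Cn m M R (16 * (m + 1) + 3 + 4) := c18.back (ad_crown hM (d := 14) (by norm_num) (by norm_num))
  have c14 : Cn m M R (16 * (m + 1) + 3 + 14) := c6.step (ad_crown hM (d := 8) (by norm_num) (by norm_num))
  interval_cases d <;> exact ⟨by assumption, by assumption⟩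

lemma cn_all (hM : Big m M R) {x y : ℕ} (h : Ad m M R x y) : Cn m M R x := by
  have key : ∀ d, 1 ≤ d → d ≤ 16 * M + 20 → Cn m M R (S0 m R d) ∧ Cn m M R (S0 m R d + d) := by
    intro d h1 h2
    rcases edge_cases (m := m) (R := R) h2 with ⟨h, e⟩ | ⟨k, r, t, hk, hr, ht, hd, e1, e2⟩
    · rw [e, add_assoc (16 * (m + 1) + 3)]
      exact cn_crown hM h1 h
    · rw [e2, e1]
      exact cn_block hM hk hr ht
  obtain ⟨d, h1, h2, ⟨h, -⟩ | ⟨-, h⟩⟩ := h
  · rw [h]
    exact (key d h1 h2).1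
  · rw [h]
    exact (key d h1 h2).2

/-- the graph -/
noncomputable abbrev G0 (m M : ℕ) (R : ℕ → ℕ → Prop) : SimpleGraph (VV (16 * M + 20) (S0 m R)) :=
  GG (16 * M + 20) (S0 m R)

lemma reach {v : VV (16 * M + 20) (S0 m R)} {y : ℕ}
    (h : Relation.ReflTransGen (Ad m M R) v.1 y) : ∃ hy, (G0 m M R).Reachable v ⟨y, hy⟩ := by
  induction h with
  | refl => exact ⟨v.2, SimpleGraph.Reachable.refl _⟩
  | @tail y z hy hyz ih =>
    obtain ⟨h1, h2⟩ := ih
    refine ⟨⟨y, ad_symm hyz⟩, h2.trans (SimpleGraph.Adj.reachable ?_)⟩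
    exact hyz

lemma connected (hM : Big m M R) : (G0 m M R).Connected := by
  have h2 := two_le hM
  have hP : PP m R (m + 1) = 0 := by
    have := PP_zero (m := m) (R := R) (p := 1) le_rfl
    rwa [mul_one] at this
  have h := ad_block (m := m) (M := M) (R := R) (m + 1) 0 0 (by omega) (by norm_num) (by norm_num)
  rw [hP] at h
  rw [SimpleGraph.connected_iff_exists_forall_reachable]
  refine ⟨⟨0, _, h⟩, ?_⟩
  rintro ⟨x, hx⟩
  obtain ⟨y, hxy⟩ := hx
  obtain ⟨hy, hr⟩ := reach (v := (⟨0, _, h⟩ : VV (16 * M + 20) (S0 m R))) (cn_all hM hxy)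
  exact hr

end construction

section embedding

variable {W : Type} [Finite W] (H : SimpleGraph W) (c : H.Coloring (Fin 2))

/-- the relation given by `H` -/
def RR (m : ℕ) (e : W ≃ Fin m) (i j : ℕ) : Prop :=
  (i < m ∧ j = m) ∨ ∃ v w : W, (e v : ℕ) = i ∧ (e w : ℕ) = j ∧ c v = 0 ∧ c w = 1 ∧ H.Adj v w

lemma RR_big {m M : ℕ} {e : W ≃ Fin m} (hM : (m + 1) * (m + 2) + 1 ≤ M) :
    Big m M (RR H c m e) := by
  refine ⟨hM, ?_⟩
  rintro i j (⟨-, h⟩ | ⟨v, w, -, h, -⟩)
  · omega
  · have := (e w).isLt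
    omega

variable {m M : ℕ} {R : ℕ → ℕ → Prop}

lemma ad_A {i j : ℕ} (hM : Big m M R) (hi : i < m) (hR : R i j) :
    Ad m M R (16 * (i + 1)) (16 * ((m + 1) * (j + 2)) + 24) := by
  have hj := hM.2 i j hR
  have h3 : (m + 1) * (j + 2) ≤ (m + 1) * (m + 2) := Nat.mul_le_mul_left _ (by omega)
  have h4 := hM.1
  have h5 : (m + 1) * (j + 2) = (m + 1) * (j + 1) + (m + 1) := by ring
  have h := ad_block (m := m) (M := M) (R := R) ((m + 1) * (j + 1) + (m - i)) 0 0 (by omega)
    (by norm_num) (by norm_num)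
  rw [PP_rel hi hR] at h
  have h6 : i + 1 + ((m + 1) * (j + 1) + (m - i)) = (m + 1) * (j + 2) := by omega
  rw [h6] at h
  exact h

lemma ad_B {j : ℕ} (hM : Big m M R) (hj : j ≤ m) :
    Ad m M R (16 * ((m + 1) * (j + 2)) + 24) 0 := by
  have h3 : (m + 1) * (j + 2) ≤ (m + 1) * (m + 2) := Nat.mul_le_mul_left _ (by omega)
  have h4 := hM.1
  have h := ad_block (m := m) (M := M) (R := R) ((m + 1) * (j + 2)) 0 0 (by omega)
    (by norm_num) (by norm_num)
  rw [PP_zero (by omega)] at h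
  simp only [mul_zero, zero_add, add_zero] at h
  exact ad_symm h

lemma ad_AB {i j : ℕ} (hM : Big m M R) (hi : i < m)
    (h : Ad m M R (16 * (i + 1)) (16 * ((m + 1) * (j + 2)) + 24)) : R i j := by
  have h5 : (m + 1) * (j + 2) = (m + 1) * (j + 1) + (m + 1) := by ring
  obtain ⟨d, h1, h2, ⟨ha, hb⟩ | ⟨ha, hb⟩⟩ := h
  · rcases edge_cases (m := m) (R := R) h2 with ⟨h, e⟩ | ⟨k, r, t, hk, hr, ht, hd, e1, e2⟩
    · have := cr_le h1 h
      omega
    · have hP : PP m R k = i + 1 := by omega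
      have hk2 : PP m R k + k = (m + 1) * (j + 2) := by omega
      rcases PP_cases (m := m) (R := R) k with ⟨h, hP'⟩ | ⟨h, hP'⟩ |
        ⟨h, i', j', hi', hR, hP', hP2⟩
      · omega
      · omega
      · have e3 : i' = i := by omega
        have e4 : j' = j := by
          rw [hk2] at hP2
          have := Nat.eq_of_mul_eq_mul_left (by omega) hP2
          omega
        rw [e3, e4] at hR
        exact hR
  · omega

lemma not_ad_AA {i i' : ℕ} (hM : Big m M R) (hi : i < m) (hi' : i' < m) :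
    ¬ Ad m M R (16 * (i + 1)) (16 * (i' + 1)) := by
  rintro ⟨d, h1, h2, ⟨ha, hb⟩ | ⟨ha, hb⟩⟩ <;>
  · have := (low_high hM d h1 h2).2
    omega

lemma not_ad_BB {j j' : ℕ} (hM : Big m M R) :
    ¬ Ad m M R (16 * ((m + 1) * (j + 2)) + 24) (16 * ((m + 1) * (j' + 2)) + 24) := by
  have h5 : (m + 1) * (j + 2) = (m + 1) * (j + 1) + (m + 1) := by ring
  have h6 : (m + 1) * (j' + 2) = (m + 1) * (j' + 1) + (m + 1) := by ring
  rintro ⟨d, h1, h2, ⟨ha, hb⟩ | ⟨ha, hb⟩⟩ <;>
  · have := (low_high hM d h1 h2).1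
    omega

/-- the label of a vertex of `H` -/
def lab (m : ℕ) (e : W ≃ Fin m) (v : W) : ℕ :=
  if c v = 0 then 16 * ((e v : ℕ) + 1) else 16 * ((m + 1) * ((e v : ℕ) + 2)) + 24

lemma lab_adj {e : W ≃ Fin m} (hM : Big m M (RR H c m e)) (v w : W) :
    Ad m M (RR H c m e) (lab H c m e v) (lab H c m e w) ↔ H.Adj v w := by
  have hv := (e v).isLt
  have hw := (e w).isLt
  have c01 : ∀ x : Fin 2, x = 0 ∨ x = 1 := by decide
  unfold lab
  rcases c01 (c v) with h1 | h1 <;> rcases c01 (c w) with h2 | h2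
  · rw [if_pos h1, if_pos h2]
    refine ⟨fun h => absurd h (not_ad_AA hM hv hw), fun h => ?_⟩
    exact absurd (h1.trans h2.symm) (c.valid h)
  · rw [if_pos h1, if_neg (by rw [h2]; decide)]
    constructor
    · intro h
      rcases ad_AB hM hv h with ⟨-, h3⟩ | ⟨v', w', h3, h4, -, -, h5⟩
      · omega
      · have e1 : v' = v := e.injective (Fin.ext h3)
        have e2 : w' = w := e.injective (Fin.ext h4)
        rw [← e1, ← e2]
        exact h5
    · intro h
      exact ad_A hM hv (Or.inr ⟨v, w, rfl, rfl, h1, h2, h⟩)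
  · rw [if_neg (by rw [h1]; decide), if_pos h2]
    constructor
    · intro h
      rcases ad_AB hM hw (ad_symm h) with ⟨-, h3⟩ | ⟨v', w', h3, h4, -, -, h5⟩
      · omega
      · have e1 : v' = w := e.injective (Fin.ext h3)
        have e2 : w' = v := e.injective (Fin.ext h4)
        rw [← e1, ← e2]
        exact h5.symm
    · intro h
      exact ad_symm (ad_A hM hw (Or.inr ⟨w, v, rfl, rfl, h2, h1, h.symm⟩))
  · rw [if_neg (by rw [h1]; decide), if_neg (by rw [h2]; decide)]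
    refine ⟨fun h => absurd h (not_ad_BB hM), fun h => ?_⟩
    exact absurd (h1.trans h2.symm) (c.valid h)

lemma lab_mem {e : W ≃ Fin m} (hM : Big m M (RR H c m e)) (v : W) :
    ∃ y, Ad m M (RR H c m e) (lab H c m e v) y := by
  have hv := (e v).isLt
  unfold lab
  by_cases h : c v = 0
  · rw [if_pos h]
    exact ⟨_, ad_A hM hv (Or.inl ⟨hv, rfl⟩)⟩
  · rw [if_neg h]
    exact ⟨_, ad_B hM hv.le⟩

lemma lab_inj (e : W ≃ Fin m) : Function.Injective (lab H c m e) := by
  intro v w h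
  have hv := (e v).isLt
  have hw := (e w).isLt
  have h5 : ∀ j : ℕ, (m + 1) * (j + 2) = (m + 1) * (j + 1) + (m + 1) := fun j => by ring
  have h6 := h5 (e v : ℕ)
  have h7 := h5 (e w : ℕ)
  apply e.injective
  apply Fin.ext
  unfold lab at h
  by_cases h1 : c v = 0 <;> by_cases h2 : c w = 0
  · rw [if_pos h1, if_pos h2] at h
    omega
  · rw [if_pos h1, if_neg h2] at h
    omega
  · rw [if_neg h1, if_pos h2] at h
    omega
  · rw [if_neg h1, if_neg h2] at h
    have h8 : (m + 1) * ((e v : ℕ) + 2) = (m + 1) * ((e w : ℕ) + 2) := by omega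
    have := Nat.eq_of_mul_eq_mul_left (by omega) h8
    omega

end embedding

/-- **Every finite bipartite graph `H` is an induced subgraph of a connected bipartite graph `G`
with `16 M + 20` edges, for every large `M`, which has a `β`-valuation but no near
`α`-valuation.** -/
theorem result {W : Type} [Finite W] (H : SimpleGraph W) (hH : H.Colorable 2) :
    ∃ M₀ : ℕ, ∀ M ≥ M₀, ∃ (V : Type) (_ : Finite V) (G : SimpleGraph V),
      G.Connected ∧ G.Colorable 2 ∧ G.edgeSet.ncard = 16 * M + 20 ∧ Nonempty (H ↪g G) ∧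
        (∃ b : V → ℕ, IsBetaValuation G b) ∧ ¬ ∃ b : V → ℕ, IsNearAlphaValuation G b := by
  obtain ⟨c⟩ := hH
  obtain ⟨m, ⟨e⟩⟩ := Finite.exists_equiv_fin W
  refine ⟨(m + 1) * (m + 2) + 1, fun M hM' => ?_⟩
  have hM : Big m M (RR H c m e) := RR_big H c hM'
  have h2 := two_le hM
  let v0 : VV (16 * M + 20) (S0 m (RR H c m e)) := ⟨_, _, ad_B hM (j := 0) (by omega)⟩
  refine ⟨VV (16 * M + 20) (S0 m (RR H c m e)), ?_, G0 m M (RR H c m e), connected hM, ?_,
    ncard_edges v0, ?_, ⟨_, beta v0 (bound hM)⟩, ?_⟩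
  · refine Finite.of_injective (β := Fin (16 * M + 21))
      (fun x => ⟨x.1, ?_⟩) ?_
    · obtain ⟨x, y, d, h1, h2, h | h⟩ := x
      · have := bound hM d h1 h2
        show x < _
        omega
      · have := bound hM d h1 h2
        show x < _
        omega
    · intro x y h
      exact Subtype.ext (congrArg Fin.val h)
  · refine ⟨SimpleGraph.Coloring.mk (fun x => if col m x.1 then 1 else 0) ?_⟩
    rintro ⟨x, hx⟩ ⟨y, hy⟩ ⟨d, h1, h2, ⟨ha, hb⟩ | ⟨ha, hb⟩⟩
    · have h3 := col_ne hM h1 h2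
      simp only at ha hb
      simp only [ha, hb]
      cases h4 : col m (S0 m (RR H c m e) d) <;> cases h5 : col m (S0 m (RR H c m e) d + d) <;>
        simp_all
    · have h3 := col_ne hM h1 h2
      simp only at ha hb
      simp only [ha, hb]
      cases h4 : col m (S0 m (RR H c m e) d) <;> cases h5 : col m (S0 m (RR H c m e) d + d) <;>
        simp_all
  · exact ⟨⟨⟨fun v => ⟨lab H c m e v, lab_mem H c hM v⟩, fun v w h =>
      lab_inj H c e (congrArg Subtype.val h)⟩, fun {v w} => lab_adj H c hM v w⟩⟩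
  · rintro ⟨b, hb⟩
    obtain ⟨F, hF⟩ := near_sum v0 hb
    obtain ⟨z, hz⟩ := four_dvd m (PP m (RR H c m e)) F M
    have h3 := sum_Icc_id (16 * M + 20)
    rw [← hF] at h3
    have h4 : (2 : ℤ) * (4 * z) = ((16 * M + 20 : ℕ) : ℤ) * (((16 * M + 20 : ℕ) : ℤ) + 1) := by
      rw [← hz]
      exact h3
    push_cast at h4
    have h6 : (8 : ℤ) * z = 8 * (32 * (M * M) + 82 * M + 52) + 4 := by
      linarith
    omega

end Pool.Agent.Results.MP_cfde94_co.EveryInducedSubgraph
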